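import Pool.Agent.H23.FGL

namespace Pool.Agent.Results.MP_ff84c4_al.Differ

open Pool.Agent.H23

/-- The Markov topology: a set is open iff it is open in every Hausdorff group topology. -/
def markov (G : Type) [Group G] : TopologicalSpace G where
  IsOpen U := ∀ t : TopologicalSpace G, @IsTopologicalGroup G t _ → @T2Space G t → t.IsOpen U
  isOpen_univ := fun t _ _ => t.isOpen_univ
  isOpen_inter := fun s u hs hu t a b => t.isOpen_inter s u (hs t a b) (hu t a b)
  isOpen_sUnion := fun s hs t a b => t.isOpen_sUnion s fun u hu => hs u hu t a b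

/-- The centralizer topology. -/
def centTop (G : Type) [Group G] : TopologicalSpace G :=
  TopologicalSpace.generateFrom {U | ∃ a b : G, U = {x | x * b * x⁻¹ = a * b * a⁻¹}}

/-- Finite double centralizers. -/
def FDC (G : Type) [Group G] : Prop :=
  ∀ F : Finset G, (Subgroup.centralizer (Subgroup.centralizer (F : Set G) : Set G) : Set G).Finite

theorem result : ∃ (G : Type) (_ : Group G), Countable G ∧ Subgroup.center G = ⊥ ∧ FDC G ∧
    markov G ≠ centTop G := by
  refine ⟨FGL.G0, inferInstance, inferInstance, FGL.center _ (fun _ h => h.1) le_rfl,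
    FGL.fdc _ (fun _ h => h.1) le_rfl, fun e => ?_⟩
  obtain ⟨t, tg, t2, b, hb⟩ := FGL.coarse
  have : (markov FGL.G0).IsOpen {x | x * b * x⁻¹ = 1 * b * 1⁻¹} :=
    e ▸ TopologicalSpace.GenerateOpen.basic _ ⟨1, b, rfl⟩
  exact hb (this t tg t2)

end Pool.Agent.Results.MP_ff84c4_al.Differ
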